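import Pool.Agent.V5helper99.DC.Defs

/-!
# Project DC, job J5: the dimension of the simplices
-/

namespace DC99

open Module

theorem J5_coord {n : ℕ} (V : Finset (Fin n)) (j i : Fin n) :
    (pt (symmDiff V {j})) i = (pt V) i - if j = i then 2 * (pt V) i else 0 := by
  have h1 : ∀ A : Finset (Fin n), (pt A) i = if i ∈ A then (-1 : ℝ) else 1 := fun _ => rfl
  rw [h1, h1]
  by_cases hji : j = i
  · subst hji
    by_cases hj : j ∈ V
    · have h2 : j ∉ symmDiff V {j} := by simp [Finset.mem_symmDiff, hj]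
      rw [if_neg h2, if_pos hj, if_pos rfl]
      norm_num
    · have h2 : j ∈ symmDiff V {j} := by simp [Finset.mem_symmDiff, hj]
      rw [if_pos h2, if_neg hj, if_pos rfl]
      norm_num
  · have h2 : i ∈ symmDiff V {j} ↔ i ∈ V := by
      rw [Finset.mem_symmDiff, Finset.mem_singleton]
      constructor
      · rintro (h | h)
        · exact h.1
        · exact absurd h.1.symm hji
      · intro h
        exact Or.inl ⟨h, fun h3 => hji h3.symm⟩
    rw [if_neg hji, sub_zero]
    simp only [h2]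

theorem J5_ne {n : ℕ} (V : Finset (Fin n)) (i : Fin n) : (pt V) i ≠ 0 := by
  have h1 : (pt V) i = if i ∈ V then (-1 : ℝ) else 1 := rfl
  rw [h1]
  split_ifs <;> norm_num

theorem J5_ind {n : ℕ} (V J : Finset (Fin n)) :
    AffineIndependent ℝ fun j : J => pt (symmDiff V {(j : Fin n)}) := by
  rw [affineIndependent_iff]
  intro s w hw hsum e he
  have h1 := congrArg (fun x : E n => x (e : Fin n)) hsum
  have h2 : (∑ j ∈ s, w j • pt (symmDiff V {(j : Fin n)})) (e : Fin n) =
      ∑ j ∈ s, w j * ((pt V) e - if (j : Fin n) = e then 2 * (pt V) e else 0) := by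
    rw [WithLp.ofLp_sum, Finset.sum_apply]
    refine Finset.sum_congr rfl fun j _ => ?_
    rw [← J5_coord]
    rfl
  have h3 : ∑ j ∈ s, w j * ((pt V) e - if (j : Fin n) = e then 2 * (pt V) e else 0) =
      (∑ j ∈ s, w j) * (pt V) e - w e * (2 * (pt V) e) := by
    simp only [mul_sub, Finset.sum_sub_distrib, ← Finset.sum_mul]
    congr 1
    rw [Finset.sum_eq_single e]
    · rw [if_pos rfl]
    · intro j _ hj
      rw [if_neg (fun h4 => hj (Subtype.ext h4)), mul_zero]
    · intro h4
      exact absurd he h4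
  have h4 : (0 : E n) (e : Fin n) = 0 := rfl
  have h5 : (∑ j ∈ s, w j) * (pt V) e - w e * (2 * (pt V) e) = 0 := by
    rw [← h3, ← h2]
    exact h1.trans h4
  rw [hw, zero_mul, zero_sub, neg_eq_zero, mul_eq_zero] at h5
  rcases h5 with h6 | h6
  · exact h6
  · exact absurd h6 (mul_ne_zero two_ne_zero (J5_ne V e))

theorem t_J5 {n : ℕ} (V J : Finset (Fin n)) (hJ : J.Nonempty) :
    finrank ℝ (vectorSpan ℝ (hull (JT V J))) + 1 = J.card := by
  have h1 : vectorSpan ℝ (hull (JT V J)) = vectorSpan ℝ (pt '' JT V J) := by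
    rw [← direction_affineSpan, ← direction_affineSpan, hull, affineSpan_convexHull]
  have h2 : pt '' JT V J = Set.range fun j : J => pt (symmDiff V {(j : Fin n)}) := by
    ext x
    constructor
    · rintro ⟨A, ⟨j, hj, rfl⟩, rfl⟩
      exact ⟨⟨j, hj⟩, rfl⟩
    · rintro ⟨j, rfl⟩
      exact ⟨_, ⟨j.1, j.2, rfl⟩, rfl⟩
  have h3 := hJ.card_pos
  rw [h1, h2, (J5_ind V J).finrank_vectorSpan (n := J.card - 1) (by rw [Fintype.card_coe]; omega)]
  omega

end DC99
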